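import Mathlib

open Polynomial Finset

namespace Pool.Agent.P.MP_344d54_co

/-- The functional `P ↦ P^{(j)}(x)`. -/
noncomputable def dv (x : ℂ) (j : ℕ) : Module.Dual ℂ ℂ[X] :=
  (leval x).comp ((derivative : ℂ[X] →ₗ[ℂ] ℂ[X]) ^ j)

lemma dv_apply (x : ℂ) (j : ℕ) (P : ℂ[X]) : dv x j P = (derivative^[j] P).eval x := by
  simp [dv, Module.End.pow_apply]

/-- The scaling `P(x) ↦ P(εx)`. -/
noncomputable def sc (e : ℂ) : ℂ[X] →ₗ[ℂ] ℂ[X] where
  toFun P := P.comp (C e * X)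
  map_add' P Q := add_comp
  map_smul' a P := by simp only [smul_eq_C_mul, C_mul_comp, RingHom.id_apply]

lemma sc_coeff (e : ℂ) (P : ℂ[X]) (k : ℕ) : (sc e P).coeff k = P.coeff k * e ^ k :=
  comp_C_mul_X_coeff

lemma sc_natDegree (e : ℂ) (P : ℂ[X]) {k : ℕ} (h : P.natDegree ≤ k) : (sc e P).natDegree ≤ k := by
  rw [natDegree_le_iff_coeff_eq_zero] at h ⊢
  intro N hN
  rw [sc_coeff, h N hN, zero_mul]

lemma iter_sc (e : ℂ) (j : ℕ) (P : ℂ[X]) :
    derivative^[j] (sc e P) = e ^ j • sc e (derivative^[j] P) := by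
  induction j generalizing P with
  | zero => simp
  | succ j ih =>
    have h1 : derivative (sc e P) = e • sc e (derivative P) := by
      show derivative (P.comp (C e * X)) = e • (derivative P).comp (C e * X)
      rw [derivative_comp, smul_eq_C_mul]
      simp
    rw [Function.iterate_succ_apply, h1, iterate_derivative_smul, ih, Function.iterate_succ_apply,
      smul_smul, pow_succ']

lemma dv_sc (e x : ℂ) (j : ℕ) (P : ℂ[X]) : dv x j (sc e P) = e ^ j * dv (e * x) j P := by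
  rw [dv_apply, dv_apply, iter_sc, eval_smul, smul_eq_mul]
  congr 1
  show eval x ((derivative^[j] P).comp (C e * X)) = _
  rw [eval_comp]
  simp

lemma iter_taylor (r : ℂ) (j : ℕ) (P : ℂ[X]) :
    derivative^[j] (taylor r P) = taylor r (derivative^[j] P) := by
  induction j generalizing P with
  | zero => simp
  | succ j ih =>
    have h1 : derivative (taylor r P) = taylor r (derivative P) := by
      rw [taylor_apply, taylor_apply, derivative_comp]
      simp
    rw [Function.iterate_succ_apply, h1, ih, Function.iterate_succ_apply]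

lemma dv_taylor (r x : ℂ) (j : ℕ) (P : ℂ[X]) : dv x j (taylor r P) = dv (x + r) j P := by
  rw [dv_apply, dv_apply, iter_taylor, taylor_eval]

lemma dv_zero (j : ℕ) (P : ℂ[X]) : dv 0 j P = (j.factorial : ℂ) * P.coeff j := by
  rw [dv_apply, ← coeff_zero_eq_eval_zero, coeff_iterate_derivative]
  simp [Nat.descFactorial_self]

lemma dual_expand (u : Module.Dual ℂ ℂ[X]) (P : ℂ[X]) {N : ℕ} (h : P.natDegree < N) :
    u P = ∑ k ∈ range N, P.coeff k * u (X ^ k) := by
  conv_lhs => rw [P.as_sum_range' N h]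
  rw [map_sum]
  refine sum_congr rfl fun k _ => ?_
  rw [← smul_X_eq_monomial, map_smul, smul_eq_mul]

/-- The orders of the elements of a space of functionals. -/
def piv (U : Submodule ℂ (Module.Dual ℂ ℂ[X])) (a : ℕ) : Prop :=
  ∃ u ∈ U, (∀ l < a, u (X ^ l) = 0) ∧ u (X ^ a) = 1

open Classical in
/-- A chosen element of order `a`. -/
noncomputable def ch (U : Submodule ℂ (Module.Dual ℂ ℂ[X])) (a : ℕ) : Module.Dual ℂ ℂ[X] :=
  if h : piv U a then h.choose else 0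

lemma ch_mem (U : Submodule ℂ (Module.Dual ℂ ℂ[X])) (a : ℕ) : ch U a ∈ U := by
  unfold ch
  split_ifs with h
  · exact h.choose_spec.1
  · exact U.zero_mem

lemma ch_lt (U : Submodule ℂ (Module.Dual ℂ ℂ[X])) {a l : ℕ} (hl : l < a) :
    ch U a (X ^ l) = 0 := by
  unfold ch
  split_ifs with h
  · exact h.choose_spec.2.1 l hl
  · rfl

lemma ch_self (U : Submodule ℂ (Module.Dual ℂ ℂ[X])) {a : ℕ} (h : piv U a) :
    ch U a (X ^ a) = 1 := by
  unfold ch
  rw [dif_pos h]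
  exact h.choose_spec.2.2

lemma kill (U : Submodule ℂ (Module.Dual ℂ ℂ[X])) {k : ℕ} {Q : ℂ[X]} (hQ : Q.natDegree ≤ k)
    (h : ∀ a ≤ k, piv U a → ch U a Q = 0) : ∀ u ∈ U, u Q = 0 := by
  have key : ∀ d : ℕ, d ≤ k + 1 → ∀ u ∈ U, (∀ l < k + 1 - d, u (X ^ l) = 0) → u Q = 0 := by
    intro d
    induction d with
    | zero =>
      intro _ u _ hu
      rw [dual_expand u Q (Nat.lt_succ_of_le hQ)]
      refine sum_eq_zero fun l hl => ?_
      rw [hu l (by simpa using hl), mul_zero]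
    | succ d ih =>
      intro hd u hU hu
      set m := k - d with hm
      have hm1 : k + 1 - (d + 1) = m := by omega
      have hm2 : k + 1 - d = m + 1 := by omega
      rw [hm1] at hu
      rw [hm2] at ih
      by_cases h0 : u (X ^ m) = 0
      · refine ih (by omega) u hU fun l hl => ?_
        rcases Nat.lt_succ_iff_lt_or_eq.mp hl with h1 | h1
        · exact hu l h1
        · rw [h1, h0]
      · have hp : piv U m := by
          refine ⟨(u (X ^ m))⁻¹ • u, U.smul_mem _ hU, fun l hl => ?_, ?_⟩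
          · simp [hu l hl]
          · simp [h0]
        have h2 := ih (by omega) (u - u (X ^ m) • ch U m)
          (U.sub_mem hU (U.smul_mem _ (ch_mem U m))) (fun l hl => by
            rcases Nat.lt_succ_iff_lt_or_eq.mp hl with h1 | h1
            · simp [hu l h1, ch_lt U h1]
            · simp [h1, ch_self U hp])
        have h3 := h m (by omega) hp
        simpa [h3] using h2
  intro u hu
  exact key (k + 1) le_rfl u hu fun l hl => by omega

open Classical in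
/-- Number of orders up to `k`. -/
noncomputable def cnt (A : ℕ → Prop) (k : ℕ) : ℕ := ((range (k + 1)).filter A).card

lemma polya_of_poised (U U' : Submodule ℂ (Module.Dual ℂ ℂ[X])) (L L' : ℂ[X] →ₗ[ℂ] ℂ[X])
    (hL : ∀ P k, P.natDegree ≤ k → (L P).natDegree ≤ k)
    (hL' : ∀ P k, P.natDegree ≤ k → (L' P).natDegree ≤ k) {n : ℕ}
    (h : ∀ P : ℂ[X], P.natDegree ≤ n → (∀ u ∈ U, u (L P) = 0) → (∀ u ∈ U', u (L' P) = 0) → P = 0)
    {k : ℕ} (hk : k ≤ n) : k + 1 ≤ cnt (piv U) k + cnt (piv U') k := by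
  classical
  by_contra hlt
  push Not at hlt
  let A := (range (k + 1)).filter (piv U)
  let B := (range (k + 1)).filter (piv U')
  let F : degreeLT ℂ (k + 1) →ₗ[ℂ] (A → ℂ) × (B → ℂ) :=
    LinearMap.prod
      (LinearMap.pi fun a : A => (ch U a).comp (L.comp (degreeLT ℂ (k + 1)).subtype))
      (LinearMap.pi fun b : B => (ch U' b).comp (L'.comp (degreeLT ℂ (k + 1)).subtype))
  have hfin : Module.finrank ℂ ((A → ℂ) × (B → ℂ)) < Module.finrank ℂ (degreeLT ℂ (k + 1)) := by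
    rw [Module.finrank_prod, Module.finrank_fintype_fun_eq_card, Module.finrank_fintype_fun_eq_card,
      Module.finrank_eq_card_basis (degreeLT.basis ℂ (k + 1))]
    simp only [Fintype.card_coe, Fintype.card_fin]
    exact hlt
  obtain ⟨P, hP, hP0⟩ := (Submodule.ne_bot_iff _).mp (LinearMap.ker_ne_bot_of_finrank_lt (f := F) hfin)
  have hdeg : (P : ℂ[X]).natDegree ≤ k := by
    have := mem_degreeLT.mp P.2
    by_cases h0 : (P : ℂ[X]) = 0
    · simp [h0]
    · exact Nat.lt_succ_iff.mp ((natDegree_lt_iff_degree_lt h0).mpr this)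
  rw [LinearMap.mem_ker] at hP
  apply hP0
  apply Subtype.ext
  refine h P (hdeg.trans hk) (kill U (hL _ _ hdeg) fun a ha hp => ?_)
    (kill U' (hL' _ _ hdeg) fun a ha hp => ?_)
  · have := congrFun (congrArg Prod.fst hP) ⟨a, by simp [A, hp, Nat.lt_succ_of_le ha]⟩
    simpa [F] using this
  · have := congrFun (congrArg Prod.snd hP) ⟨a, by simp [B, hp, Nat.lt_succ_of_le ha]⟩
    simpa [F] using this

/-- Rolle step. -/
lemma rolle_step {f g : ℝ → ℝ} (hfg : ∀ x, HasDerivAt f (g x) x) (s : Finset ℝ)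
    (hs : ∀ x ∈ s, x ∈ Set.Icc (0 : ℝ) 1 ∧ f x = 0) :
    ∃ t : Finset ℝ, (∀ x ∈ t, x ∈ Set.Ioo (0 : ℝ) 1 ∧ g x = 0) ∧ s.card ≤ t.card + 1 := by
  classical
  have hr : ∀ p : ℝ × ℝ, ∃ z, (p.1 ∈ s ∧ p.2 ∈ s ∧ p.1 < p.2) → (z ∈ Set.Ioo p.1 p.2 ∧ g z = 0) := by
    intro p
    by_cases hp : p.1 ∈ s ∧ p.2 ∈ s ∧ p.1 < p.2
    · obtain ⟨z, hz⟩ := exists_hasDerivAt_eq_zero hp.2.2
        (fun x _ => (hfg x).continuousAt.continuousWithinAt)
        ((hs _ hp.1).2.trans (hs _ hp.2.1).2.symm) (fun x _ => hfg x)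
      exact ⟨z, fun _ => hz⟩
    · exact ⟨0, fun h => absurd h hp⟩
  choose z hz using hr
  refine ⟨((s ×ˢ s).filter fun p => p.1 < p.2).image z, ?_, ?_⟩
  · intro x hx
    obtain ⟨p, hp, rfl⟩ := mem_image.mp hx
    simp only [mem_filter, mem_product] at hp
    have := hz p ⟨hp.1.1, hp.1.2, hp.2⟩
    exact ⟨⟨(hs _ hp.1.1).1.1.trans_lt this.1.1, this.1.2.trans_le (hs _ hp.1.2).1.2⟩, this.2⟩
  · refine card_le_of_interleaved fun x hx y hy hxy _ => ⟨z (x, y), ?_, (hz (x, y) ⟨hx, hy, hxy⟩).1⟩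
    exact mem_image.mpr ⟨(x, y), by simp [hx, hy, hxy], rfl⟩

open Classical in
lemma cnt_succ (A : ℕ → Prop) (k : ℕ) :
    cnt A (k + 1) = cnt A k + if A (k + 1) then 1 else 0 := by
  unfold cnt
  rw [range_add_one (n := k + 1), filter_insert]
  split_ifs with h
  · rw [card_insert_of_notMem (by simp)]
  · rfl

open Classical in
lemma cnt_zero (A : ℕ → Prop) : cnt A 0 = if A 0 then 1 else 0 := by
  unfold cnt
  rw [zero_add, range_one, filter_singleton]
  split_ifs <;> simp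

open Classical in
lemma add_ends {g : ℝ → ℝ} (p q : Prop) (h0 : p → g 0 = 0) (h1 : q → g 1 = 0) (t : Finset ℝ)
    (ht : ∀ x ∈ t, x ∈ Set.Ioo (0 : ℝ) 1 ∧ g x = 0) :
    ∃ s : Finset ℝ, (∀ x ∈ s, x ∈ Set.Icc (0 : ℝ) 1 ∧ g x = 0) ∧
      s.card = t.card + (if p then 1 else 0) + (if q then 1 else 0) := by
  have n0 : (0 : ℝ) ∉ t := fun h => lt_irrefl _ (ht 0 h).1.1
  have n1 : (1 : ℝ) ∉ t := fun h => lt_irrefl _ (ht 1 h).1.2
  have ht' : ∀ x ∈ t, x ∈ Set.Icc (0 : ℝ) 1 ∧ g x = 0 :=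
    fun x hx => ⟨Set.Ioo_subset_Icc_self (ht x hx).1, (ht x hx).2⟩
  by_cases hp : p <;> by_cases hq : q
  · refine ⟨insert 1 (insert 0 t), ?_, ?_⟩
    · simp only [forall_mem_insert]
      exact ⟨⟨by simp, h1 hq⟩, ⟨by simp, h0 hp⟩, ht'⟩
    · rw [card_insert_of_notMem (by simp [n1]), card_insert_of_notMem n0]
      simp [hp, hq]
  · refine ⟨insert 0 t, ?_, ?_⟩
    · simp only [forall_mem_insert]
      exact ⟨⟨by simp, h0 hp⟩, ht'⟩
    · rw [card_insert_of_notMem n0]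
      simp [hp, hq]
  · refine ⟨insert 1 t, ?_, ?_⟩
    · simp only [forall_mem_insert]
      exact ⟨⟨by simp, h1 hq⟩, ht'⟩
    · rw [card_insert_of_notMem n1]
      simp [hp, hq]
  · exact ⟨t, ht', by simp [hp, hq]⟩

/-- Two-point interpolation under the counting condition. -/
lemma two_point (A B : ℕ → Prop) {n : ℕ} (hAB : ∀ k ≤ n, k + 1 ≤ cnt A k + cnt B k) (P : ℂ[X])
    (hP : P.natDegree ≤ n) (hA : ∀ a ≤ n, A a → dv 0 a P = 0) (hB : ∀ b ≤ n, B b → dv 1 b P = 0) :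
    P = 0 := by
  classical
  by_contra h0
  set d := P.natDegree with hd
  set w : ℂ := (d.factorial : ℂ) * P.coeff d with hw
  have hw0 : w ≠ 0 := mul_ne_zero (Nat.cast_ne_zero.mpr d.factorial_ne_zero)
    (leadingCoeff_ne_zero.mpr h0)
  let f : ℕ → ℝ → ℝ := fun k x => (w⁻¹ * dv x k P).re
  have hf : ∀ k x, HasDerivAt (f k) (f (k + 1) x) x := by
    intro k x
    have h1 : HasDerivAt (fun z : ℂ => w⁻¹ * (derivative^[k] P).eval z)
        (w⁻¹ * (derivative (derivative^[k] P)).eval (x : ℂ)) (x : ℂ) :=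
      ((derivative^[k] P).hasDerivAt (x : ℂ)).const_mul _
    have h2 := h1.real_of_complex
    simp only [f, dv_apply, Function.iterate_succ_apply']
    exact h2
  have key : ∀ k ≤ n, ∃ s : Finset ℝ, (∀ x ∈ s, x ∈ Set.Icc (0 : ℝ) 1 ∧ f k x = 0) ∧
      cnt A k + cnt B k ≤ s.card + k := by
    intro k
    induction k with
    | zero =>
      intro hk
      obtain ⟨s, hs, hc⟩ := add_ends (g := f 0) (A 0) (B 0) (fun h => by simp [f, hA 0 hk h])
        (fun h => by simp [f, hB 0 hk h]) ∅ (by simp)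
      refine ⟨s, hs, ?_⟩
      rw [cnt_zero, cnt_zero, hc]
      simp
    | succ k ih =>
      intro hk
      obtain ⟨s, hs, hc⟩ := ih (by omega)
      obtain ⟨t, ht, hst⟩ := rolle_step (hf k) s hs
      obtain ⟨s', hs', hc'⟩ := add_ends (g := f (k + 1)) (A (k + 1)) (B (k + 1))
        (fun h => by simp [f, hA _ hk h]) (fun h => by simp [f, hB _ hk h]) t ht
      refine ⟨s', hs', ?_⟩
      rw [cnt_succ, cnt_succ, hc']
      omega
  obtain ⟨s, hs, hc⟩ := key d hP
  have h1 := hAB d hP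
  obtain ⟨x, hx⟩ : s.Nonempty := card_pos.mp (by omega)
  have h2 := (hs x hx).2
  have h3 : dv x d P = w := by
    have h4 : (derivative^[d] P).natDegree ≤ 0 := by
      have := natDegree_iterate_derivative P d
      omega
    rw [hw, ← dv_zero, dv_apply, dv_apply, eq_C_of_natDegree_le_zero h4]
    simp
  simp only [f, h3, inv_mul_cancel₀ hw0] at h2
  simp at h2

lemma fin_exc_aux {V : Type*} [AddCommGroup V] [Module ℂ V] [Module.Finite ℂ V] (D : ℕ)
    (H : ℕ → V →ₗ[ℂ] V) (h0 : H 0 = LinearMap.id) :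
    {e : ℂ | ∃ v, v ≠ 0 ∧ ∑ d ∈ range (D + 1), e ^ d • H d v = 0}.Finite := by
  classical
  let b := Module.finBasis ℂ V
  let M : Matrix (Fin (Module.finrank ℂ V)) (Fin (Module.finrank ℂ V)) ℂ[X] :=
    fun i j => ∑ d ∈ range (D + 1), C (LinearMap.toMatrix b b (H d) i j) * X ^ d
  have hM : ∀ e : ℂ, M.det.eval e = LinearMap.det (∑ d ∈ range (D + 1), e ^ d • H d) := by
    intro e
    rw [← LinearMap.det_toMatrix b, ← coe_evalRingHom, RingHom.map_det]
    congr 1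
    ext i j
    rw [map_sum, Matrix.sum_apply, RingHom.mapMatrix_apply, Matrix.map_apply, map_sum]
    refine sum_congr rfl fun d _ => ?_
    rw [map_smul, Matrix.smul_apply, smul_eq_mul, mul_comm (e ^ d)]
    simp only [coe_evalRingHom, eval_mul, eval_C, eval_pow, eval_X]
  have hne : M.det ≠ 0 := by
    intro h
    have := hM 0
    rw [h, sum_range_succ', sum_eq_zero (fun i _ => by simp)] at this
    simp [h0] at this
  refine (M.det.roots.toFinset.finite_toSet).subset ?_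
  rintro e ⟨v, hv, he⟩
  simp only [mem_coe, Multiset.mem_toFinset, mem_roots hne, IsRoot.def, hM]
  rw [LinearMap.det_eq_zero_iff_ker_ne_bot, Submodule.ne_bot_iff]
  exact ⟨v, by simpa [LinearMap.sum_apply] using he, hv⟩

lemma fin_exc {ι : Type*} [Fintype ι] (n D : ℕ) (F : ι → ℕ → Module.Dual ℂ ℂ[X])
    (h0 : ∀ P : ℂ[X], P.natDegree ≤ n → (∀ i, F i 0 P = 0) → P = 0) :
    {e : ℂ | ∃ P : ℂ[X], P.natDegree ≤ n ∧ P ≠ 0 ∧
      ∀ i, ∑ d ∈ range (D + 1), e ^ d * F i d P = 0}.Finite := by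
  let G : ℕ → degreeLT ℂ (n + 1) →ₗ[ℂ] (ι → ℂ) := fun d =>
    LinearMap.pi fun i => (F i d).comp (degreeLT ℂ (n + 1)).subtype
  have hker : LinearMap.ker (G 0) = ⊥ := by
    rw [Submodule.eq_bot_iff]
    intro P hP
    apply Subtype.ext
    refine h0 P ?_ fun i => by simpa [G] using congrFun (LinearMap.mem_ker.mp hP) i
    by_cases h : (P : ℂ[X]) = 0
    · simp [h]
    · exact Nat.lt_succ_iff.mp ((natDegree_lt_iff_degree_lt h).mpr (mem_degreeLT.mp P.2))
  obtain ⟨L, hL⟩ := (G 0).exists_leftInverse_of_injective hker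
  haveI : Module.Finite ℂ (degreeLT ℂ (n + 1)) := Module.Finite.of_basis (degreeLT.basis ℂ (n + 1))
  refine (fin_exc_aux D (fun d => L.comp (G d)) hL).subset ?_
  rintro e ⟨P, hP, hP0, he⟩
  refine ⟨⟨P, mem_degreeLT.mpr ((natDegree_lt_iff_degree_lt hP0).mp (Nat.lt_succ_of_le hP))⟩,
    fun h => hP0 (congrArg Subtype.val h), ?_⟩
  simp only [LinearMap.comp_apply, ← map_smul L, ← map_sum L]
  convert map_zero L
  ext i
  simpa [G, Finset.sum_apply] using he i

lemma ch_sc (U : Submodule ℂ (Module.Dual ℂ ℂ[X])) (a : ℕ) (e : ℂ) {n : ℕ} {P : ℂ[X]}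
    (hP : P.natDegree ≤ n) :
    ch U a (sc e P) = e ^ a * ∑ d ∈ range (n + 1), e ^ d * (ch U a (X ^ (a + d)) * P.coeff (a + d)) := by
  rw [dual_expand _ _ (N := a + (n + 1)) (by have := sc_natDegree e P hP; omega), sum_range_add,
    sum_eq_zero (fun l hl => by rw [ch_lt U (mem_range.mp hl), mul_zero]), zero_add, mul_sum]
  refine sum_congr rfl fun d _ => ?_
  rw [sc_coeff]
  ring

lemma poised_of_polya (U U' : Submodule ℂ (Module.Dual ℂ ℂ[X])) {n : ℕ}
    (h : ∀ k ≤ n, k + 1 ≤ cnt (piv U) k + cnt (piv U') k) {c : ℂ} (hc : c ≠ 0) :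
    {e : ℂ | e ≠ 0 ∧ ∃ P : ℂ[X], P.natDegree ≤ n ∧ P ≠ 0 ∧ (∀ u ∈ U, u (sc e P) = 0) ∧
      ∀ u ∈ U', u (sc (c * e) (taylor 1 P)) = 0}.Finite := by
  let F : Fin (n + 1) ⊕ Fin (n + 1) → ℕ → Module.Dual ℂ ℂ[X] := fun i d =>
    Sum.elim (fun a : Fin (n + 1) => ch U a (X ^ (a + d : ℕ)) • lcoeff ℂ (a + d))
      (fun b : Fin (n + 1) => (c ^ d * ch U' b (X ^ (b + d : ℕ))) • (lcoeff ℂ (b + d)).comp (taylor 1)) i
  refine (fin_exc n n F fun P hP hF => ?_).subset ?_
  · refine two_point _ _ h P hP (fun a ha hp => ?_) (fun b hb hp => ?_)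
    · have := hF (Sum.inl ⟨a, Nat.lt_succ_of_le ha⟩)
      simp only [F, Sum.elim_inl, add_zero, ch_self U hp, one_smul, lcoeff_apply] at this
      rw [dv_zero, this, mul_zero]
    · have := hF (Sum.inr ⟨b, Nat.lt_succ_of_le hb⟩)
      simp only [F, Sum.elim_inr, add_zero, ch_self U' hp, pow_zero, one_mul, one_smul,
        LinearMap.comp_apply, lcoeff_apply] at this
      rw [← zero_add (1 : ℂ), ← dv_taylor, dv_zero, this, mul_zero]
  · rintro e ⟨he, P, hP, hP0, h1, h2⟩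
    refine ⟨P, hP, hP0, ?_⟩
    rintro (a | b)
    · have := h1 _ (ch_mem U a)
      rw [ch_sc U a e hP, mul_eq_zero] at this
      simpa [F] using this.resolve_left (pow_ne_zero _ he)
    · have := h2 _ (ch_mem U' b)
      rw [ch_sc U' b (c * e) (n := n) (by rwa [natDegree_taylor]), mul_eq_zero] at this
      rw [← this.resolve_left (pow_ne_zero _ (mul_ne_zero hc he))]
      refine sum_congr rfl fun d _ => ?_
      simp only [F, Sum.elim_inr, LinearMap.smul_apply, LinearMap.comp_apply, lcoeff_apply,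
        smul_eq_mul]
      ring

/-- The conditions indexed by `Y` determine polynomials of degree at most `n`. -/
def Poised {ι : Type*} (L : ι → ℂ) (n : ℕ) (Y : Finset (ι × ℕ)) : Prop :=
  ∀ P : ℂ[X], P.natDegree ≤ n → (∀ z ∈ Y, dv (L z.1) z.2 P = 0) → P = 0

/-- Two clusters of points, near `0` and near `1`. -/
noncomputable def pts {ι : Type*} (side : ι → Bool) (r : ι → ℂ) (c e : ℂ) (i : ι) : ℂ :=
  if side i then c * e * r i + 1 else e * r i

/-- The span of the functionals of one cluster. -/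
noncomputable def sp {ι : Type*} (side : ι → Bool) (r : ι → ℂ) (Y : Finset (ι × ℕ)) (s : Bool) :
    Submodule ℂ (Module.Dual ℂ ℂ[X]) :=
  Submodule.span ℂ {u | ∃ z ∈ Y, side z.1 = s ∧ u = dv (r z.1) z.2}

lemma sp_iff {ι : Type*} (side : ι → Bool) (r : ι → ℂ) (Y : Finset (ι × ℕ)) (s : Bool) (Q : ℂ[X]) :
    (∀ u ∈ sp side r Y s, u Q = 0) ↔ ∀ z ∈ Y, side z.1 = s → dv (r z.1) z.2 Q = 0 := by
  constructor
  · intro h z hz hs
    exact h _ (Submodule.subset_span ⟨z, hz, hs, rfl⟩)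
  · intro h u hu
    induction hu using Submodule.span_induction with
    | mem u hu =>
      obtain ⟨z, hz, hs, rfl⟩ := hu
      exact h z hz hs
    | zero => rfl
    | add u v _ _ hu hv => simp [hu, hv]
    | smul a u _ hu => simp [hu]

lemma cond_iff {ι : Type*} (side : ι → Bool) (r : ι → ℂ) (Y : Finset (ι × ℕ)) {c e : ℂ}
    (hc : c ≠ 0) (he : e ≠ 0) (P : ℂ[X]) :
    (∀ z ∈ Y, dv (pts side r c e z.1) z.2 P = 0) ↔
      (∀ u ∈ sp side r Y false, u (sc e P) = 0) ∧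
        ∀ u ∈ sp side r Y true, u (sc (c * e) (taylor 1 P)) = 0 := by
  rw [sp_iff, sp_iff]
  simp only [dv_sc, dv_taylor, mul_eq_zero, pow_ne_zero _ he, pow_ne_zero _ (mul_ne_zero hc he),
    false_or]
  constructor
  · intro h
    refine ⟨fun z hz hs => ?_, fun z hz hs => ?_⟩
    · simpa [pts, hs] using h z hz
    · simpa [pts, hs] using h z hz
  · rintro ⟨h1, h2⟩ z hz
    cases hs : side z.1
    · simpa [pts, hs] using h1 z hz hs
    · simpa [pts, hs] using h2 z hz hs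

lemma transfer {ι : Type*} (side : ι → Bool) (r : ι → ℂ) (n : ℕ) (Y : Finset (ι × ℕ))
    {c e c' : ℂ} (hc : c ≠ 0) (he : e ≠ 0) (hc' : c' ≠ 0) (h : Poised (pts side r c e) n Y) :
    {e' : ℂ | e' ≠ 0 ∧ ¬ Poised (pts side r c' e') n Y}.Finite := by
  have h1 := fun k hk => polya_of_poised (sp side r Y false) (sp side r Y true) (sc e)
    ((sc (c * e)).comp (taylor 1)) (fun P k hP => sc_natDegree e P hP)
    (fun P k hP => sc_natDegree _ _ (by rwa [natDegree_taylor])) (n := n)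
    (fun P hP h1 h2 => h P hP ((cond_iff side r Y hc he P).mpr ⟨h1, h2⟩)) (k := k) hk
  refine (poised_of_polya _ _ h1 hc').subset ?_
  rintro e' ⟨he', hn⟩
  unfold Poised at hn
  push Not at hn
  obtain ⟨P, hP, hz, hP0⟩ := hn
  exact ⟨he', P, hP, hP0, (cond_iff side r Y hc' he' P).mp hz⟩

lemma exists_generic {ι : Type*} [Countable ι] (side : ι → Bool) (r : ι → ℂ) {c c' : ℂ}
    (hc : c ≠ 0) (hc' : c' ≠ 0) (S : Set ℂ) (hS : S.Countable) :
    ∃ t : ℂ, t ∉ S ∧ t ≠ 0 ∧ ∀ n Y, Poised (pts side r c t) n Y ↔ Poised (pts side r c' t) n Y := by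
  classical
  let bad : ℂ → ℕ × Finset (ι × ℕ) → Set ℂ := fun d p =>
    {e' : ℂ | {e' : ℂ | e' ≠ 0 ∧ ¬ Poised (pts side r d e') p.1 p.2}.Finite ∧
      e' ≠ 0 ∧ ¬ Poised (pts side r d e') p.1 p.2}
  have hb : ∀ d p, (bad d p).Countable := by
    intro d p
    by_cases h : {e' : ℂ | e' ≠ 0 ∧ ¬ Poised (pts side r d e') p.1 p.2}.Finite
    · exact (h.subset fun e he => he.2).countable
    · convert Set.countable_empty
      exact Set.eq_empty_of_forall_notMem fun e he => h he.1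
  have hcount : (S ∪ {0} ∪ (⋃ p, bad c p) ∪ ⋃ p, bad c' p).Countable :=
    ((hS.union (Set.countable_singleton 0)).union (Set.countable_iUnion (hb c))).union
      (Set.countable_iUnion (hb c'))
  obtain ⟨t, ht⟩ : ∃ t, t ∉ S ∪ {0} ∪ (⋃ p, bad c p) ∪ ⋃ p, bad c' p := by
    by_contra h
    push Not at h
    rw [Set.eq_univ_of_forall h] at hcount
    exact not_countable_complex hcount
  simp only [Set.mem_union, Set.mem_singleton_iff, Set.mem_iUnion, not_or, not_exists] at ht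
  obtain ⟨⟨⟨h1, h2⟩, h3⟩, h4⟩ := ht
  refine ⟨t, h1, h2, fun n Y => ⟨fun h => ?_, fun h => ?_⟩⟩
  · by_contra hn
    exact h4 (n, Y) ⟨transfer side r n Y hc h2 hc' h, h2, hn⟩
  · by_contra hn
    exact h3 (n, Y) ⟨transfer side r n Y hc' h2 hc h, h2, hn⟩

lemma sep {ι : Type*} [Fintype ι] [Nonempty ι] (L L' : ι → ℂ) (n : ℕ)
    (h : ∀ Y, Poised L n Y ↔ Poised L' n Y) (Z : Finset (ι × ℕ)) (hZ : ∀ z ∈ Z, z.2 ≤ n) (z : ι × ℕ)
    {P : ℂ[X]} (hP : P.natDegree ≤ n) (hPZ : ∀ y ∈ Z, dv (L y.1) y.2 P = 0)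
    (hz : dv (L z.1) z.2 P ≠ 0) :
    ∃ P' : ℂ[X], P'.natDegree ≤ n ∧ (∀ y ∈ Z, dv (L' y.1) y.2 P' = 0) ∧ dv (L' z.1) z.2 P' ≠ 0 := by
  classical
  let T : Finset (ι × ℕ) := univ ×ˢ range (n + 1)
  let fam : Finset (Finset (ι × ℕ)) := T.powerset.filter fun Y => Z ⊆ Y ∧
    ∃ P : ℂ[X], P.natDegree ≤ n ∧ (∀ y ∈ Y, dv (L y.1) y.2 P = 0) ∧ dv (L z.1) z.2 P ≠ 0
  have hne : fam.Nonempty := ⟨Z, by
    simp only [fam, mem_filter, mem_powerset]
    exact ⟨fun y hy => by simp [T, Nat.lt_succ_of_le (hZ y hy)], Subset.rfl, P, hP, hPZ, hz⟩⟩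
  obtain ⟨Y, hY, hmax⟩ := exists_max_image fam card hne
  simp only [fam, mem_filter, mem_powerset] at hY hmax
  obtain ⟨hYT, hZY, P₀, hP₀, hY₀, hz₀⟩ := hY
  have hp : Poised L n (insert z Y) := by
    intro Q hQ hQY
    by_contra hQ0
    obtain ⟨y, hyT, hy⟩ : ∃ y ∈ T, dv (L y.1) y.2 Q ≠ 0 := by
      obtain ⟨i⟩ := ‹Nonempty ι›
      refine ⟨(i, Q.natDegree), by simp [T, Nat.lt_succ_of_le hQ], ?_⟩
      have h4 : (derivative^[Q.natDegree] Q).natDegree ≤ 0 := by
        have := natDegree_iterate_derivative Q Q.natDegree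
        omega
      have h5 : dv (L i) Q.natDegree Q = dv 0 Q.natDegree Q := by
        rw [dv_apply, dv_apply, eq_C_of_natDegree_le_zero h4]
        simp
      rw [h5, dv_zero]
      exact mul_ne_zero (Nat.cast_ne_zero.mpr (Nat.factorial_ne_zero _))
        (leadingCoeff_ne_zero.mpr hQ0)
    have hyY : y ∉ Y := fun hh => hy (hQY y (mem_insert_of_mem hh))
    have := hmax (insert y Y) ⟨insert_subset hyT hYT, hZY.trans (subset_insert _ _),
      P₀ - (dv (L y.1) y.2 P₀ / dv (L y.1) y.2 Q) • Q,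
      (natDegree_sub_le _ _).trans (max_le hP₀ ((natDegree_smul_le _ _).trans hQ)), ?_, ?_⟩
    · rw [card_insert_of_notMem hyY] at this
      omega
    · intro w hw
      rcases mem_insert.mp hw with rfl | hw
      · rw [map_sub, map_smul, smul_eq_mul, div_mul_cancel₀ _ hy, sub_self]
      · rw [map_sub, map_smul, hY₀ w hw, hQY w (mem_insert_of_mem hw), smul_zero, sub_self]
    · rwa [map_sub, map_smul, hQY z (mem_insert_self _ _), smul_zero, sub_zero]
  have hn : ¬ Poised L n Y := fun hh => hz₀ (by rw [hh P₀ hP₀ hY₀, map_zero])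
  rw [h] at hp hn
  unfold Poised at hn
  push Not at hn
  obtain ⟨P', hP', hY', hP'0⟩ := hn
  refine ⟨P', hP', fun y hy => hY' y (hZY hy), fun h0 => hP'0 (hp P' hP' fun w hw => ?_)⟩
  rcases mem_insert.mp hw with rfl | hw
  · exact h0
  · exact hY' w hw

lemma pattern {ι : Type*} [Fintype ι] [Nonempty ι] (L L' : ι → ℂ) (n : ℕ)
    (h : ∀ Y, Poised L n Y ↔ Poised L' n Y) {P : ℂ[X]} (hP : P.degree = n) :
    ∃ P' : ℂ[X], P'.degree = n ∧
      ∀ i, ∀ j ≤ n, (dv (L i) j P = 0 ↔ dv (L' i) j P' = 0) := by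
  classical
  have hPn : P.natDegree = n := natDegree_eq_of_degree_eq_some hP
  have hP0 : P ≠ 0 := by
    rintro rfl
    simp at hP
  let T : Finset (ι × ℕ) := univ ×ˢ range (n + 1)
  let Z := T.filter fun y => dv (L y.1) y.2 P = 0
  let W : Submodule ℂ ℂ[X] := degreeLE ℂ n ⊓ ⨅ y ∈ Z, LinearMap.ker (dv (L' y.1) y.2)
  have hW : ∀ Q, Q ∈ W ↔ Q.natDegree ≤ n ∧ ∀ y ∈ Z, dv (L' y.1) y.2 Q = 0 := by
    intro Q
    simp [W, mem_degreeLE, natDegree_le_iff_degree_le, Submodule.mem_iInf]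
  obtain ⟨P', hP', hne⟩ := Module.Dual.exists_forall_mem_ne_zero_of_forall_exists W
    (fun y : (T.filter fun y => dv (L y.1) y.2 P ≠ 0) => dv (L' y.1.1) y.1.2) (fun y => by
      obtain ⟨Q, h1, h2, h3⟩ := sep L L' n h Z
        (fun z hz => by
          simp only [Z, T, mem_filter, mem_product, mem_range] at hz
          omega) y hPn.le (fun y hy => (mem_filter.mp hy).2) (mem_filter.mp y.2).2
      exact ⟨Q, (hW Q).mpr ⟨h1, h2⟩, h3⟩)
  obtain ⟨h1, h2⟩ := (hW P').mp hP'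
  have hiff : ∀ i, ∀ j ≤ n, (dv (L i) j P = 0 ↔ dv (L' i) j P' = 0) := by
    intro i j hj
    have hT : (i, j) ∈ T := by simp [T, Nat.lt_succ_of_le hj]
    refine ⟨fun h0 => h2 (i, j) (mem_filter.mpr ⟨hT, h0⟩), fun h0 => ?_⟩
    by_contra h3
    exact hne ⟨(i, j), mem_filter.mpr ⟨hT, h3⟩⟩ h0
  refine ⟨P', ?_, hiff⟩
  obtain ⟨i⟩ := ‹Nonempty ι›
  have top : ∀ (Q : ℂ[X]) (x : ℂ), Q.natDegree ≤ n → dv x n Q = (n.factorial : ℂ) * Q.coeff n := by
    intro Q x hQ
    have h4 : (derivative^[n] Q).natDegree ≤ 0 := by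
      have := natDegree_iterate_derivative Q n
      omega
    rw [← dv_zero, dv_apply, dv_apply, eq_C_of_natDegree_le_zero h4]
    simp
  have h3 : dv (L' i) n P' ≠ 0 := by
    rw [Ne, ← hiff i n le_rfl, top P _ hPn.le, ← hPn]
    exact mul_ne_zero (Nat.cast_ne_zero.mpr (Nat.factorial_ne_zero _))
      (leadingCoeff_ne_zero.mpr hP0)
  rw [top P' _ h1] at h3
  exact degree_eq_of_le_of_coeff_ne_zero (natDegree_le_iff_degree_le.mp h1)
    (right_ne_zero_of_mul h3)

end Pool.Agent.P.MP_344d54_co
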